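import Pool.Agent.H38.WT.Targets

/-! Board wt, row SI (helper12). -/

set_option autoImplicit false

open Finset

namespace Pool.Agent.H12.WT

open Pool.Agent.H38.WT

lemma no_triangle {m : ℕ} {U : SimpleGraph (Fin m)} (hU : U.IsTree) {a b c : Fin m}
    (hab : U.Adj a b) (hbc : U.Adj b c) (hca : U.Adj c a) : False := by
  refine hU.isAcyclic (SimpleGraph.Walk.cons hab (SimpleGraph.Walk.cons hbc
    (SimpleGraph.Walk.cons hca SimpleGraph.Walk.nil))) ?_
  rw [SimpleGraph.Walk.isCycle_def, SimpleGraph.Walk.isTrail_def]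
  have h1 := hab.ne
  have h2 := hbc.ne
  have h3 := hca.ne
  refine ⟨?_, ?_, ?_⟩
  · simp [h1, h2, h3, h1.symm, h2.symm, h3.symm]
  · simp
  · simp [h2, h3, h3.symm, h1.symm]

lemma nbr_card (n : ℕ) (i : Fin n) [DecidablePred fun a => (pJ n).Adj a i] :
    (univ.filter fun a => (pJ n).Adj a i).card ≤ 2 := by
  have key : ∃ c d : ℕ, ∀ a : Fin n, (pJ n).Adj a i → (a : ℕ) = c ∨ (a : ℕ) = d := by
    by_cases h0 : (i : ℕ) = 0
    · refine ⟨1, 2, fun a ha => ?_⟩
      rcases ha with h | h | h | h <;> omega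
    by_cases h1 : (i : ℕ) = 1
    · refine ⟨0, 0, fun a ha => ?_⟩
      rcases ha with h | h | h | h <;> omega
    by_cases h2 : (i : ℕ) = 2
    · refine ⟨3, 0, fun a ha => ?_⟩
      rcases ha with h | h | h | h <;> omega
    · refine ⟨i - 1, i + 1, fun a ha => ?_⟩
      rcases ha with h | h | h | h <;> omega
  obtain ⟨c, d, h⟩ := key
  rw [← Finset.card_image_of_injective _ Fin.val_injective]
  refine (Finset.card_le_card (t := {c, d}) ?_).trans Finset.card_le_two
  intro v hv
  obtain ⟨a, ha, rfl⟩ := Finset.mem_image.1 hv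
  rw [Finset.mem_insert, Finset.mem_singleton]
  exact h a (Finset.mem_filter.1 ha).2

theorem pf_SI : T_SI := by
  classical
  intro n hn x i
  set N : Finset (Fin n) := univ.filter fun a => (pJ n).Adj a i with hN
  have hcard : N.powerset.card ≤ 4 := by
    rw [Finset.card_powerset]
    calc 2 ^ N.card ≤ 2 ^ 2 := Nat.pow_le_pow_right (by norm_num) (nbr_card n i)
      _ = 4 := by norm_num
  have hx : ∀ U : SimpleGraph (Fin (n + 1)), Disp1 (pJ n) U x i → ∀ a, a ≠ i →
      U.Adj x (x.succAbove a) → (pJ n).Adj a i := fun U hU a ha h =>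
    (hU.2 a i ha).2 (Or.inr (Or.inr ⟨rfl, h⟩))
  let F : {U : SimpleGraph (Fin (n + 1)) // U.IsTree ∧ Disp1 (pJ n) U x i} →
      {s // s ∈ N.powerset} := fun U =>
    ⟨N.filter fun a => U.1.Adj x (x.succAbove a), Finset.mem_powerset.2 (Finset.filter_subset _ _)⟩
  have hF : Function.Injective F := by
    rintro ⟨U, hU, hD⟩ ⟨V, hV, hE⟩ h
    have h0 : (N.filter fun a => U.Adj x (x.succAbove a)) =
        N.filter fun a => V.Adj x (x.succAbove a) := congrArg Subtype.val h
    have h1 : ∀ a, a ≠ i → (U.Adj x (x.succAbove a) ↔ V.Adj x (x.succAbove a)) := by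
      intro a ha
      constructor
      · intro hh
        have h2 : a ∈ N.filter fun a => U.Adj x (x.succAbove a) :=
          Finset.mem_filter.2 ⟨Finset.mem_filter.2 ⟨mem_univ _, hx U hD a ha hh⟩, hh⟩
        rw [h0] at h2
        exact (Finset.mem_filter.1 h2).2
      · intro hh
        have h2 : a ∈ N.filter fun a => V.Adj x (x.succAbove a) :=
          Finset.mem_filter.2 ⟨Finset.mem_filter.2 ⟨mem_univ _, hx V hE a ha hh⟩, hh⟩
        rw [← h0] at h2
        exact (Finset.mem_filter.1 h2).2
    have h1' : ∀ a, (U.Adj x (x.succAbove a) ↔ V.Adj x (x.succAbove a)) := by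
      intro a
      by_cases ha : a = i
      · subst ha
        exact ⟨fun _ => hE.1, fun _ => hD.1⟩
      · exact h1 a ha
    have h2 : ∀ W : SimpleGraph (Fin (n + 1)), W.IsTree → Disp1 (pJ n) W x i → ∀ a, a ≠ i →
        (W.Adj (x.succAbove a) (x.succAbove i) ↔ (pJ n).Adj a i ∧ ¬ W.Adj x (x.succAbove a)) := by
      intro W hW hWD a ha
      constructor
      · intro hh
        refine ⟨(hWD.2 a i ha).2 (Or.inl hh), fun h3 => ?_⟩
        exact no_triangle hW h3 hh hWD.1.symm
      · rintro ⟨h3, h4⟩
        rcases (hWD.2 a i ha).1 h3 with h5 | h5 | h5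
        · exact h5
        · exact absurd h5.1 ha
        · exact absurd h5.2 h4
    have h3 : ∀ a b, a ≠ b → (U.Adj (x.succAbove a) (x.succAbove b) ↔
        V.Adj (x.succAbove a) (x.succAbove b)) := by
      intro a b hab
      by_cases ha : a = i
      · subst ha
        rw [U.adj_comm, V.adj_comm, h2 U hU hD b hab.symm, h2 V hV hE b hab.symm, h1 b hab.symm]
      by_cases hb : b = i
      · subst hb
        rw [h2 U hU hD a ha, h2 V hV hE a ha, h1 a ha]
      have h4 : ∀ W : SimpleGraph (Fin (n + 1)), Disp1 (pJ n) W x i →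
          (W.Adj (x.succAbove a) (x.succAbove b) ↔ (pJ n).Adj a b) := by
        intro W hWD
        constructor
        · intro hh
          exact (hWD.2 a b hab).2 (Or.inl hh)
        · intro hh
          rcases (hWD.2 a b hab).1 hh with h5 | h5 | h5
          · exact h5
          · exact absurd h5.1 ha
          · exact absurd h5.1 hb
      rw [h4 U hD, h4 V hE]
    refine Subtype.ext ?_
    change U = V
    ext u v
    rcases Fin.eq_self_or_eq_succAbove x u with rfl | ⟨a, rfl⟩
    · rcases Fin.eq_self_or_eq_succAbove u v with rfl | ⟨b, rfl⟩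
      · simp
      · exact h1' b
    · rcases Fin.eq_self_or_eq_succAbove x v with rfl | ⟨b, rfl⟩
      · rw [U.adj_comm, V.adj_comm]
        exact h1' a
      · by_cases hab : a = b
        · subst hab
          simp
        · exact h3 a b hab
  have h := Nat.card_le_card_of_injective F hF
  refine h.trans ?_
  rw [Nat.card_eq_fintype_card, Fintype.card_coe]
  exact hcard

end Pool.Agent.H12.WT
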